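import Pool.Agent.DCI57.Defs
import Pool.Agent.ZVois.Defs

/-!
# Zero-cycles on the self-product of a diagonal complete intersection: definitions

`k` is an algebraically closed field of characteristic `0`, `X` a closed subset of the projective
space with coordinates indexed by `J`. The notions `Place` (point of a smooth projective curve) and
`IsValue` (value of a morphism to the projective space) are those of `Pool.Agent.ZCyc.Defs` and
`Pool.Agent.DCI57.Defs`, where also the diagonal complete intersections `Diag` are defined.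
-/

open scoped LinearAlgebra.Projectivization

namespace Pool.Agent.VCI

open Pool.Agent.ZCyc Pool.Agent.DCI57

universe u w

variable {k : Type u} [Field k] {J : Type}

/-- The zero-cycles (with coefficients in `R`, a field of characteristic zero) on `X × X` which are
rationally equivalent to zero: the span of the cycles `Φ_* (π^* a - π^* b)`, for all finite Galois
coverings `π : D → ℙ¹` of smooth projective curves, given by extensions `F` of `k(X)`, all points
`a` and `b` (`≠ ∞`) of `ℙ¹`, and all morphisms `Φ = (φ, ψ)` from `D` to `X × X`. Here `π^* a` is the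
sum of the points `τ v`, for all `τ` in the Galois group, where `v` is a point of `D` above `a`. -/
noncomputable def ratEquiv2 (R : Type w) [Field R] (X : Set (ℙ k (J → k))) :
    Submodule R (ℙ k (J → k) × ℙ k (J → k) →₀ R) :=
  Submodule.span R {z | ∃ (F : Type u) (_ : Field F) (_ : Algebra k F) (_ : Algebra (RatFunc k) F)
    (_ : IsScalarTower k (RatFunc k) F) (_ : FiniteDimensional (RatFunc k) F)
    (_ : IsGalois (RatFunc k) F) (x y : J → F) (φ ψ : Place k F → ℙ k (J → k))
    (_ : ∀ v, IsValue v x (φ v)) (_ : ∀ v, IsValue v y (ψ v)) (_ : ∀ v, φ v ∈ X)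
    (_ : ∀ v, ψ v ∈ X) (a b : k) (v w : Place k F)
    (_ : v.Vanishes (algebraMap (RatFunc k) F (RatFunc.X - RatFunc.C a)))
    (_ : w.Vanishes (algebraMap (RatFunc k) F (RatFunc.X - RatFunc.C b))),
    z = ∑ τ : F ≃ₐ[RatFunc k] F, (Finsupp.single
        (φ (v.map (τ.restrictScalars k)), ψ (v.map (τ.restrictScalars k))) 1 -
      Finsupp.single (φ (w.map (τ.restrictScalars k)), ψ (w.map (τ.restrictScalars k))) 1)}

/-- The exterior product of two zero-cycles. -/
noncomputable def prod {R : Type w} [Field R] (a b : ℙ k (J → k) →₀ R) :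
    ℙ k (J → k) × ℙ k (J → k) →₀ R :=
  a.sum fun p r => b.sum fun q t => Finsupp.single (p, q) (r * t)

/-- The coefficients of the equations `∑ j, l j * e j ^ i * x j ^ m = 0`, `i = 0, …, r - 1`. -/
def osc (l e : J → k) (r : ℕ) : Fin r → J → k := fun i j => l j * e j ^ (i : ℕ)

section Op

variable [Fintype J] [DecidableEq J] {m : ℕ} [NeZero m] {R : Type w} [Field R]

/-- the operator `(p, q) ↦ ∑ g h, ψ g * ψ' h • (act ζ g p, act ζ h q)` -/
noncomputable def op2 (ζ : kˣ) (ψ ψ' : AddChar (J → ZMod m) R) :
    (ℙ k (J → k) × ℙ k (J → k) →₀ R) →ₗ[R] (ℙ k (J → k) × ℙ k (J → k) →₀ R) :=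
  Finsupp.linearCombination R fun p => ∑ g : J → ZMod m, ∑ h : J → ZMod m,
    Finsupp.single (act ζ g p.1, act ζ h p.2) (ψ g * ψ' h)

/-- the weights of the osculating hyperplanes -/
noncomputable def wt (l e : J → k) (j : J) : k := (l j * ∏ i ∈ Finset.univ.erase j, (e j - e i))⁻¹

/-- a point given by `n` points of the curve -/
def vec {K : Type} {n : ℕ} (η : J → k) (β : K → J → k) (γ : Fin n → K) : J → k :=
  fun j => η j * ∏ i, β (γ i) j

end Op

end Pool.Agent.VCI
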