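import Pool.Agent.VCI.FormalA
import Pool.Agent.DCI57.Op

/-!
# The operators attached to a pair of characters
-/

open Polynomial
open scoped LinearAlgebra.Projectivization

namespace Pool.Agent.VCI

open Pool.Agent.ZCyc Pool.Agent.DCI57

universe u w

section FormalB

variable {k : Type u} [Field k] {J : Type} {R : Type w} [Field R]

variable [Fintype J] [DecidableEq J] {m : ℕ} [NeZero m]

private lemma op2_expand (ζ : kˣ) (ψ ψ' : AddChar (J → ZMod m) R) (p q : ℙ k (J → k)) :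
    op2 ζ ψ ψ' (Finsupp.single (p, q) 1) = ∑ g : J → ZMod m, ∑ h : J → ZMod m,
      Finsupp.single (act ζ g p, act ζ h q) (ψ g * ψ' h) := by
  rw [op2, Finsupp.linearCombination_single, one_smul]

theorem op2_single (ζ : kˣ) (ψ ψ' : AddChar (J → ZMod m) R) (p q : ℙ k (J → k)) :
    op2 ζ ψ ψ' (Finsupp.single (p, q) 1) =
      prodL k J R (op ζ ψ (Finsupp.single p 1)) (op ζ ψ' (Finsupp.single q 1)) := by
  rw [op2_expand, op_single, op_single, map_sum, Finset.sum_comm]
  refine Finset.sum_congr rfl fun h _ => ?_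
  rw [map_sum, LinearMap.sum_apply]
  exact Finset.sum_congr rfl fun g _ => (prodL_single _ _ _ _).symm

theorem op2_act {ζ : kˣ} (hζ : ζ ^ m = 1) (ψ ψ' : AddChar (J → ZMod m) R) (g h : J → ZMod m)
    (p q : ℙ k (J → k)) :
    (ψ g * ψ' h) • op2 ζ ψ ψ' (Finsupp.single (act ζ g p, act ζ h q) 1) =
      op2 ζ ψ ψ' (Finsupp.single (p, q) 1) := by
  rw [op2_single, op2_single, ← op_act hζ ψ g p, ← op_act hζ ψ' h q, map_smul, map_smul,
    LinearMap.smul_apply, mul_smul, smul_comm]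

theorem op2_mem {ζ : kˣ} (ψ ψ' : AddChar (J → ZMod m) R) {X : Set (ℙ k (J → k))}
    (hX : ∀ g : J → ZMod m, ∀ p ∈ X, act ζ g p ∈ X) {z : ℙ k (J → k) × ℙ k (J → k) →₀ R}
    (hz : z ∈ ratEquiv2 R X) : op2 ζ ψ ψ' z ∈ ratEquiv2 R X := by
  have hle : ratEquiv2 R X ≤ (ratEquiv2 R X).comap (op2 ζ ψ ψ') := by
    conv_lhs => rw [ratEquiv2]
    rw [Submodule.span_le]
    rintro _ ⟨F, _, _, _, _, _, _, x, y, φ, χ, h1, h2, h3, h4, a, b, v, w, hv, hw, rfl⟩
    rw [SetLike.mem_coe, Submodule.mem_comap, map_sum]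
    have h5 : ∀ τ : F ≃ₐ[RatFunc k] F,
        op2 ζ ψ ψ' (Finsupp.single
            (φ (v.map (τ.restrictScalars k)), χ (v.map (τ.restrictScalars k))) 1 -
          Finsupp.single
            (φ (w.map (τ.restrictScalars k)), χ (w.map (τ.restrictScalars k))) 1) =
        ∑ g : J → ZMod m, ∑ h : J → ZMod m, (ψ g * ψ' h) • (Finsupp.single
            (act ζ g (φ (v.map (τ.restrictScalars k))),
              act ζ h (χ (v.map (τ.restrictScalars k)))) 1 -
          Finsupp.single (act ζ g (φ (w.map (τ.restrictScalars k))),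
              act ζ h (χ (w.map (τ.restrictScalars k)))) 1) := by
      intro τ
      rw [map_sub, op2_expand, op2_expand, ← Finset.sum_sub_distrib]
      refine Finset.sum_congr rfl fun g _ => ?_
      rw [← Finset.sum_sub_distrib]
      refine Finset.sum_congr rfl fun h _ => ?_
      rw [smul_sub, Finsupp.smul_single, Finsupp.smul_single, smul_eq_mul, mul_one]
    rw [Finset.sum_congr rfl fun τ _ => h5 τ, Finset.sum_comm]
    apply Submodule.sum_mem
    intro g _
    rw [Finset.sum_comm]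
    apply Submodule.sum_mem
    intro h _
    rw [← Finset.smul_sum]
    apply Submodule.smul_mem
    exact gen2_mem (x := fun j => algebraMap k F ((ζ ^ (g j).val : kˣ) : k) * x j)
      (y := fun j => algebraMap k F ((ζ ^ (h j).val : kˣ) : k) * y j)
      (φ := fun v => act ζ g (φ v)) (ψ := fun v => act ζ h (χ v)) (fun v => (h1 v).act ζ g)
      (fun v => (h2 v).act ζ h) (fun v => hX g _ (h3 v)) (fun v => hX h _ (h4 v)) hv hw
  exact hle hz

theorem op_eq_zero_of_rep {ζ : kˣ} (hζ : ζ ^ m = 1) (ψ : AddChar (J → ZMod m) R) {j : J}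
    {p : ℙ k (J → k)} (hp : p.rep j = 0) (hψ : ψ (Pi.single j 1) ≠ 1) :
    op ζ ψ (Finsupp.single p 1) = 0 := by
  refine op_eq_zero hζ ψ (h := Pi.single j 1) (act_of_zero ζ fun i hi => ?_) hψ
  by_cases hij : i = j
  · rw [hij, hp]
  · exact absurd (Pi.single_eq_of_ne hij _) hi

theorem op2_eq_zero {ζ : kˣ} (hζ : ζ ^ m = 1) (ψ ψ' : AddChar (J → ZMod m) R)
    {p q : ℙ k (J → k)} (h : (∃ j, p.rep j = 0 ∧ ψ (Pi.single j 1) ≠ 1) ∨
      ∃ j, q.rep j = 0 ∧ ψ' (Pi.single j 1) ≠ 1) :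
    op2 ζ ψ ψ' (Finsupp.single (p, q) 1) = 0 := by
  rw [op2_single]
  rcases h with ⟨j, h1, h2⟩ | ⟨j, h1, h2⟩
  · rw [op_eq_zero_of_rep hζ ψ h1 h2, map_zero, LinearMap.zero_apply]
  · rw [op_eq_zero_of_rep hζ ψ' h1 h2, map_zero]

end FormalB

end Pool.Agent.VCI
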