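import Pool.Agent.VCI.FormalA
import Pool.Agent.VCI.FormalB
import Pool.Agent.DCI57.Vanish

/-!
# The part of two different characters

The part of the Chow group of zero-cycles on the self-product of a diagonal complete intersection
which belongs to a pair of characters is zero if the exponents of the two characters together can
be divided into sufficiently many zero-sum blocks, one of which contains exponents of both.
-/

open Polynomial
open scoped LinearAlgebra.Projectivization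

namespace Pool.Agent.VCI

open Pool.Agent.ZCyc Pool.Agent.DCI57

universe u w

section

variable {k : Type u} [Field k] {J : Type} [Fintype J] [DecidableEq J] {m : ℕ} [NeZero m]
  {R : Type w} [Field R] [CharZero R]

omit [Fintype J] [DecidableEq J] in
/-- a coordinate of the value which vanishes -/
private lemma value_zero {F : Type u} [Field F] [Algebra k F] [Algebra (RatFunc k) F]
    [IsScalarTower k (RatFunc k) F] {P : J → k[X]} {x : J → F}
    (hx : ∀ j, x j ^ m = algebraMap (RatFunc k) F (algebraMap k[X] (RatFunc k) (P j)))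
    {w : Place k F} {b : k}
    (hw : w.Vanishes (algebraMap (RatFunc k) F (RatFunc.X - RatFunc.C b)))
    {p : ℙ k (J → k)} (hp : IsValue w x p) {i l : J} (hi : (P i).eval b = 0)
    (hl : (P l).eval b ≠ 0) : p.rep i = 0 := by
  refine hp.rep_zero (m := m) (i := i) (l := l) ⟨(P l).eval b, hl, ?_⟩ ?_
  · rw [hx l]
    exact at_poly hw (P l)
  · rw [hx i, ← hi]
    exact at_poly hw (P i)

/-- The relation given by a pair of rational curves in the quotient. -/
private theorem relation2 [IsAlgClosed k] [CharZero k] {ζ : kˣ}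
    (hζ : IsPrimitiveRoot (ζ : k) m) {r : ℕ}
    {c : Fin r → J → k} {P : J ⊕ J → k[X]} (hP : ∀ i, ∑ j, C (c i j) * P (Sum.inl j) = 0)
    (hP' : ∀ i, ∑ j, C (c i j) * P (Sum.inr j) = 0) {p q : ℙ k (J → k)} {d d' : k} (hd : d ≠ 0)
    (hd' : d' ≠ 0) (hp : ∀ j, (P (Sum.inl j)).eval 1 = d * p.rep j ^ m)
    (hq : ∀ j, (P (Sum.inr j)).eval 1 = d' * q.rep j ^ m)
    (ψ ψ' : AddChar (J → ZMod m) R)
    (hψ : ∀ {F : Type u} [Field F] [Algebra k F] [Algebra (RatFunc k) F]
      [IsScalarTower k (RatFunc k) F] (x : J ⊕ J → F),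
      (∀ j, x j ^ m = algebraMap (RatFunc k) F (algebraMap k[X] (RatFunc k) (P j))) →
      ∀ (τ : F ≃ₐ[RatFunc k] F) (t : J ⊕ J → ZMod m),
      (∀ j, τ (x j) = algebraMap k F ((ζ ^ (t j).val : kˣ) : k) * x j) →
      ψ (fun j => t (Sum.inl j)) * ψ' (fun j => t (Sum.inr j)) = 1)
    (hz : ∀ p' q' : ℙ k (J → k), ((∃ j, p'.rep j = 0) ∨ ∃ j, q'.rep j = 0) →
      op2 ζ ψ ψ' (Finsupp.single (p', q') 1) = 0)
    (h0 : (∃ i l, (P (Sum.inl i)).eval 0 = 0 ∧ (P (Sum.inl l)).eval 0 ≠ 0) ∨
      ∃ i l, (P (Sum.inr i)).eval 0 = 0 ∧ (P (Sum.inr l)).eval 0 ≠ 0) :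
    op2 ζ ψ ψ' (Finsupp.single (p, q) 1) ∈ ratEquiv2 R (Diag m c) := by
  classical
  have hζ1 : ζ ^ m = 1 := by
    apply Units.ext
    push_cast
    exact hζ.pow_eq_one
  obtain ⟨F, _, _, _, _, _, _, x, hx⟩ := exists_cover (NeZero.pos m) P
  -- the morphisms
  have hne : ∀ (f : J → J ⊕ J) (p : ℙ k (J → k)) (d : k), d ≠ 0 →
      (∀ j, (P (f j)).eval 1 = d * p.rep j ^ m) → ∃ j, x (f j) ≠ 0 := by
    intro f p d hd hp
    have h1 : ∃ j, p.rep j ≠ 0 := by
      by_contra hcon
      push Not at hcon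
      exact p.rep_nonzero (funext hcon)
    obtain ⟨j, hj⟩ := h1
    refine ⟨j, fun h0 => ?_⟩
    have h2 := hx (f j)
    rw [h0, zero_pow (NeZero.ne m)] at h2
    have h3 : P (f j) = 0 := by
      have h4 := (map_eq_zero _).1 h2.symm
      exact (map_eq_zero_iff _ (RatFunc.algebraMap_injective k)).1 h4
    have h5 := hp j
    rw [h3, eval_zero] at h5
    exact mul_ne_zero hd (pow_ne_zero _ hj) h5.symm
  have hX1 := hne Sum.inl p d hd hp
  have hX2 := hne Sum.inr q d' hd' hq
  have hval1 : ∀ v : Place k F, ∃ p, IsValue v (fun j => x (Sum.inl j)) p := fun v =>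
    exists_value v hX1
  have hval2 : ∀ v : Place k F, ∃ p, IsValue v (fun j => x (Sum.inr j)) p := fun v =>
    exists_value v hX2
  choose φ hφ using hval1
  choose χ hχ using hval2
  have hsum : ∀ f : J → J ⊕ J, (∀ i, ∑ j, C (c i j) * P (f j) = 0) →
      ∀ i, ∑ j, algebraMap k F (c i j) * x (f j) ^ m = 0 := by
    intro f hP i
    have h1 : ∀ j, algebraMap k F (c i j) * x (f j) ^ m =
        algebraMap (RatFunc k) F (algebraMap k[X] (RatFunc k) (C (c i j) * P (f j))) := by
      intro j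
      rw [hx, map_mul, map_mul, RatFunc.algebraMap_C, ← RatFunc.algebraMap_eq_C,
        ← IsScalarTower.algebraMap_apply k (RatFunc k) F]
    rw [Finset.sum_congr rfl fun j _ => h1 j, ← map_sum, ← map_sum, hP i, map_zero, map_zero]
  have hφX : ∀ v, φ v ∈ Diag m c := fun v => (hφ v).mem_Diag (hsum Sum.inl hP)
  have hχX : ∀ v, χ v ∈ Diag m c := fun v => (hχ v).mem_Diag (hsum Sum.inr hP')
  -- the points above `1` and `0`
  have htr : Transcendental k (algebraMap (RatFunc k) F RatFunc.X) := by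
    rw [transcendental_algebraMap_iff (algebraMap (RatFunc k) F).injective]
    exact RatFunc.transcendental_X
  obtain ⟨v, hv⟩ := exists_place htr 1
  obtain ⟨w, hw⟩ := exists_place htr 0
  have hv' : v.Vanishes (algebraMap (RatFunc k) F (RatFunc.X - RatFunc.C 1)) := by
    rw [algebraMap_sub_C]
    exact hv
  have hw' : w.Vanishes (algebraMap (RatFunc k) F (RatFunc.X - RatFunc.C 0)) := by
    rw [algebraMap_sub_C]
    exact hw
  obtain ⟨g, hg⟩ := (hφ v).eq_act hζ hd (p := p) (fun j => by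
    rw [hx, ← hp j]
    exact at_poly hv' (P (Sum.inl j)))
  obtain ⟨h, hh⟩ := (hχ v).eq_act hζ hd' (p := q) (fun j => by
    rw [hx, ← hq j]
    exact at_poly hv' (P (Sum.inr j)))
  -- conjugate points
  have hconj : ∀ (u : Place k F) (τ : F ≃ₐ[RatFunc k] F),
      op2 ζ ψ ψ' (Finsupp.single (φ (u.map (τ.restrictScalars k)),
        χ (u.map (τ.restrictScalars k))) 1) =
        op2 ζ ψ ψ' (Finsupp.single (φ u, χ u) 1) := by
    intro u τ
    obtain ⟨t, ht⟩ := exists_twist hζ (x := x) (τ := τ.symm) (fun j => by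
      rw [← map_pow, hx j, AlgEquiv.commutes])
    have h1 := (hφ u).map (τ.restrictScalars k) (g := fun j => t (Sum.inl j))
      (fun j => ht (Sum.inl j))
    have h2 := (hχ u).map (τ.restrictScalars k) (g := fun j => t (Sum.inr j))
      (fun j => ht (Sum.inr j))
    rw [(hφ _).unique h1, (hχ _).unique h2,
      ← op2_act hζ1 ψ ψ' (fun j => t (Sum.inl j)) (fun j => t (Sum.inr j)) (φ u) (χ u),
      hψ x hx τ.symm t ht, one_smul]
  have hgen := op2_mem (ζ := ζ) ψ ψ' (X := Diag m c) (fun g p hp => act_mem hζ1 hp g)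
    (gen2_mem (R := R) hφ hχ hφX hχX hv' hw')
  rw [map_sum] at hgen
  have h1 : ∀ τ : F ≃ₐ[RatFunc k] F,
      op2 ζ ψ ψ' (Finsupp.single (φ (v.map (τ.restrictScalars k)),
          χ (v.map (τ.restrictScalars k))) 1 -
        Finsupp.single (φ (w.map (τ.restrictScalars k)), χ (w.map (τ.restrictScalars k))) 1) =
      op2 ζ ψ ψ' (Finsupp.single (φ v, χ v) 1) - op2 ζ ψ ψ' (Finsupp.single (φ w, χ w) 1) := by
    intro τ
    rw [map_sub, hconj, hconj]
  rw [Finset.sum_congr rfl fun τ _ => h1 τ, Finset.sum_const, ← Nat.cast_smul_eq_nsmul R] at hgen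
  have hcard : (((Finset.univ : Finset (F ≃ₐ[RatFunc k] F)).card : ℕ) : R) ≠ 0 := by
    rw [Nat.cast_ne_zero, Finset.card_ne_zero]
    exact ⟨1, Finset.mem_univ _⟩
  have h2 := (Submodule.smul_mem_iff _ hcard).1 hgen
  have h3 : op2 ζ ψ ψ' (Finsupp.single (φ w, χ w) 1) = 0 := by
    apply hz
    rcases h0 with ⟨i, l, hi, hl⟩ | ⟨i, l, hi, hl⟩
    · exact Or.inl ⟨i, value_zero (P := fun j => P (Sum.inl j)) (fun j => hx (Sum.inl j)) hw'
        (hφ w) hi hl⟩
    · exact Or.inr ⟨i, value_zero (P := fun j => P (Sum.inr j)) (fun j => hx (Sum.inr j)) hw'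
        (hχ w) hi hl⟩
  rw [h3, sub_zero, hg, hh] at h2
  rw [← op2_act hζ1 ψ ψ' g h p q]
  exact Submodule.smul_mem _ _ h2

end

private lemma pow_val_add {m : ℕ} [NeZero m] {R : Type w} [Field R] {ω : R} (hω : ω ^ m = 1)
    {x y : ZMod m} (h : x + y = 0) : ω ^ x.val * ω ^ y.val = 1 := by
  have h1 : ((x.val + y.val : ℕ) : ZMod m) = 0 := by
    push_cast
    rw [ZMod.natCast_zmod_val, ZMod.natCast_zmod_val, h]
  obtain ⟨n, hn⟩ := (ZMod.natCast_eq_zero_iff _ _).1 h1
  rw [← pow_add, hn, pow_mul, hω, one_pow]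

private lemma char_single {m : ℕ} [NeZero m] {J : Type} [Fintype J] [DecidableEq J]
    {R : Type w} [Field R] {ω : R} (hω : IsPrimitiveRoot ω m) {a : J → ZMod m}
    (ha : ∀ j, a j ≠ 0) {ψ : AddChar (J → ZMod m) R}
    (hψ : ∀ t, ψ t = ω ^ (∑ j, a j * t j).val) (j : J) : ψ (Pi.single j 1) ≠ 1 := by
  have h1 : ψ (Pi.single j 1) = ω ^ (a j).val := by
    rw [hψ]
    congr 2
    rw [Finset.sum_eq_single j]
    · simp
    · intro i _ hij
      simp [Pi.single_eq_of_ne hij]
    · simp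
  rw [h1]
  intro h2
  have h3 := (hω.pow_eq_one_iff_dvd _).1 h2
  have h4 : (a j).val = 0 := Nat.eq_zero_of_dvd_of_lt h3 (ZMod.val_lt _)
  exact ha j ((ZMod.val_eq_zero _).1 h4)

theorem mixed {k : Type u} [Field k] [IsAlgClosed k] [CharZero k] {J : Type} [Fintype J]
    [DecidableEq J] {m : ℕ} [NeZero m] {R : Type w} [Field R] [CharZero R] {ζ : kˣ}
    (hζ : IsPrimitiveRoot (ζ : k) m) {r : ℕ} (c : Fin r → J → k) {ω : R}
    (hω : IsPrimitiveRoot ω m) {a a' : J → ZMod m} (ha : ∀ j, a j ≠ 0) (ha' : ∀ j, a' j ≠ 0)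
    {ψ ψ' : AddChar (J → ZMod m) R} (hψ : ∀ t, ψ t = ω ^ (∑ j, a j * t j).val)
    (hψ' : ∀ t, ψ' t = ω ^ (∑ j, a' j * t j).val) {s : ℕ} {b : J ⊕ J → Fin s}
    (hb : Function.Surjective b) (hsum : ∀ B, ∑ q : J ⊕ J with b q = B, Sum.elim a a' q = 0)
    (hcard : 2 * r < s) (hconn : ∃ i₁ i₂ i' : J, i₁ ≠ i₂ ∧ b (Sum.inl i₂) = b (Sum.inr i'))
    {p q : ℙ k (J → k)} (hp : p ∈ Diag m c) (hq : q ∈ Diag m c) :
    op2 ζ ψ ψ' (Finsupp.single (p, q) 1) ∈ ratEquiv2 R (Diag m c) := by
  classical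
  have hζ1 : ζ ^ m = 1 := by
    apply Units.ext
    push_cast
    exact hζ.pow_eq_one
  have hm : 0 < m := NeZero.pos m
  have hzero : ∀ p' q' : ℙ k (J → k), ((∃ j, p'.rep j = 0) ∨ ∃ j, q'.rep j = 0) →
      op2 ζ ψ ψ' (Finsupp.single (p', q') 1) = 0 := by
    rintro p' q' (⟨j, hj⟩ | ⟨j, hj⟩)
    · exact op2_eq_zero hζ1 ψ ψ' (Or.inl ⟨j, hj, char_single hω ha hψ j⟩)
    · exact op2_eq_zero hζ1 ψ ψ' (Or.inr ⟨j, hj, char_single hω ha' hψ' j⟩)
  by_cases hpz : (∃ j, p.rep j = 0) ∨ ∃ j, q.rep j = 0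
  · rw [hzero p q hpz]
    exact Submodule.zero_mem _
  push Not at hpz
  obtain ⟨i₁, i₂, i', hi, hbi⟩ := hconn
  set A : J ⊕ J → ZMod m := Sum.elim a a' with hA
  have hA0 : ∀ x, A x ≠ 0 := by
    rintro (j | j)
    · exact ha j
    · exact ha' j
  -- the `m`-th roots of the coordinates
  set ρ : J ⊕ J → k := Sum.elim (fun j => p.rep j) (fun j => q.rep j) with hρ
  have hρ0 : ∀ x, ρ x ≠ 0 := by
    rintro (j | j)
    · exact hpz.1 j
    · exact hpz.2 j
  -- the classes
  set κ : J ⊕ J → Option (Fin s) := fun x => if x = Sum.inl i₁ then none else some (b x) with hκdef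
  have hκ : ∀ B, ∃ x ∈ (Finset.univ : Finset (J ⊕ J)), κ x = B := by
    rintro (_ | B)
    · exact ⟨Sum.inl i₁, Finset.mem_univ _, by simp [hκdef]⟩
    · by_cases hB : ∃ x, b x = B ∧ x ≠ Sum.inl i₁
      · obtain ⟨x, hxB, hxx⟩ := hB
        exact ⟨x, Finset.mem_univ _, by simp [hκdef, hxx, hxB]⟩
      · exfalso
        push Not at hB
        obtain ⟨x, hxB⟩ := hb B
        have hxx := hB x hxB
        subst hxx
        have h1 := hsum B
        rw [Finset.sum_eq_single_of_mem (Sum.inl i₁)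
          (Finset.mem_filter.2 ⟨Finset.mem_univ _, hxB⟩)] at h1
        · exact hA0 _ h1
        · intro x hx hxi
          rw [Finset.mem_filter] at hx
          exact absurd (hB x hx.2) hxi
  -- the pencil
  set c' : Fin (r + r) → J ⊕ J → k :=
    Fin.append (fun i => Sum.elim (c i) 0) (fun i => Sum.elim 0 (c i)) with hc'
  obtain ⟨v, β, hv0, hvc, hβ, hvβ⟩ := exists_pencil c' (z := fun x => ρ x ^ m)
    (S := Finset.univ) (fun x _ => pow_ne_zero _ (hρ0 x)) κ hκ (by
      rw [Finset.card_univ]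
      omega)
  have hvc1 : ∀ i, ∑ j, c i j * v (Sum.inl j) = 0 := by
    intro i
    have h1 := hvc (Fin.castAdd r i)
    rw [Fintype.sum_sum_type] at h1
    simp only [hc', Fin.append_left, Sum.elim_inl, Sum.elim_inr, Pi.zero_apply, zero_mul,
      Finset.sum_const_zero, add_zero] at h1
    exact h1
  have hvc2 : ∀ i, ∑ j, c i j * v (Sum.inr j) = 0 := by
    intro i
    have h1 := hvc (Fin.natAdd r i)
    rw [Fintype.sum_sum_type] at h1
    simp only [hc', Fin.append_right, Sum.elim_inl, Sum.elim_inr, Pi.zero_apply, zero_mul,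
      Finset.sum_const_zero, zero_add] at h1
    exact h1
  -- the normalising constant
  set β' : k := if β (some (b (Sum.inl i₁))) = 0 then 1 else β (some (b (Sum.inl i₁))) with hβ'
  have hβ'0 : β' ≠ 0 := by
    rw [hβ']
    split_ifs with h
    · exact one_ne_zero
    · exact h
  set P : J ⊕ J → k[X] := fun x => C (β' * ρ x ^ m) * X ^ m + C (v x) * (1 - X ^ m) with hPdef
  have hP1 : ∀ x, (P x).eval 1 = β' * ρ x ^ m := by
    intro x
    simp [hPdef]
  have hP0 : ∀ x, (P x).eval 0 = v x := by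
    intro x
    simp [hPdef, hm.ne']
  have hPc : ∀ (f : J → J ⊕ J) (p : ℙ k (J → k)), (∀ j, ρ (f j) = p.rep j) → p ∈ Diag m c →
      (∀ i, ∑ j, c i j * v (f j) = 0) → ∀ i, ∑ j, C (c i j) * P (f j) = 0 := by
    intro f p hf hp hv i
    have h1 : ∀ j, C (c i j) * P (f j) = C β' * X ^ m * C (c i j * p.rep j ^ m) +
        (1 - X ^ m) * C (c i j * v (f j)) := by
      intro j
      simp only [hPdef, hf, map_mul]
      ring
    rw [Finset.sum_congr rfl fun j _ => h1 j, Finset.sum_add_distrib, ← Finset.mul_sum,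
      ← Finset.mul_sum, ← map_sum, ← map_sum, hp i, hv i]
    simp
  -- the product is an `m`-th power
  have hroot : ∃ Q : k[X], ∏ x ∈ (Finset.univ : Finset (J ⊕ J)), P x ^ (A x).val = Q ^ m := by
    rw [← Finset.prod_fiberwise Finset.univ b]
    apply exists_pow_prod
    intro B _
    have hPS : ∀ x, P x = C (ρ x ^ m) * (C β' * X ^ m + C (β (κ x)) * (1 - X ^ m)) := by
      intro x
      simp only [hPdef, hvβ x (Finset.mem_univ _), map_mul]
      ring
    by_cases hB : B = b (Sum.inl i₁)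
    · -- the block of `i₁`
      subst hB
      apply exists_pow_prod
      intro x hx
      rw [Finset.mem_filter] at hx
      obtain ⟨γ, hγ⟩ := IsAlgClosed.exists_pow_nat_eq β' hm
      have h2 : ∃ M : k[X], C β' * X ^ m + C (β (κ x)) * (1 - X ^ m) = M ^ m := by
        by_cases hxx : x = Sum.inl i₁
        · refine ⟨C γ * X, ?_⟩
          have h3 : β (κ x) = 0 := by
            rw [hxx]
            simp [hκdef, hβ]
          rw [h3, mul_pow, ← map_pow, hγ]
          simp
        · have h3 : κ x = some (b (Sum.inl i₁)) := by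
            simp [hκdef, hxx, hx.2]
          rw [h3]
          by_cases h4 : β (some (b (Sum.inl i₁))) = 0
          · refine ⟨X, ?_⟩
            have h5 : β' = 1 := by rw [hβ', if_pos h4]
            rw [h4, h5]
            simp
          · refine ⟨C γ, ?_⟩
            have h5 : β' = β (some (b (Sum.inl i₁))) := by rw [hβ', if_neg h4]
            rw [← map_pow, hγ, h5]
            ring
      obtain ⟨M, hM⟩ := h2
      refine ⟨(C (ρ x) * M) ^ (A x).val, ?_⟩
      rw [hPS x, hM]
      simp only [map_pow, mul_pow]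
      ring
    · -- another block
      have h2 : ∀ x ∈ Finset.univ.filter (fun x => b x = B), P x ^ (A x).val =
          (C (ρ x) ^ (A x).val) ^ m *
            (C β' * X ^ m + C (β (some B)) * (1 - X ^ m)) ^ (A x).val := by
        intro x hx
        rw [Finset.mem_filter] at hx
        have hxx : x ≠ Sum.inl i₁ := by
          rintro rfl
          exact hB hx.2.symm
        have h3 : κ x = some B := by
          simp [hκdef, hxx, hx.2]
        rw [hPS x, h3, mul_pow, map_pow, ← pow_mul, ← pow_mul, mul_comm m]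
      rw [Finset.prod_congr rfl h2, Finset.prod_mul_distrib, Finset.prod_pow_eq_pow_sum]
      have h4 : m ∣ ∑ x : J ⊕ J with b x = B, (A x).val := by
        rw [← ZMod.natCast_eq_zero_iff]
        push_cast
        simp only [ZMod.natCast_val, ZMod.cast_id', id_eq]
        exact hsum B
      obtain ⟨n, hn⟩ := h4
      refine ⟨(∏ x : J ⊕ J with b x = B, C (ρ x) ^ (A x).val) *
        (C β' * X ^ m + C (β (some B)) * (1 - X ^ m)) ^ n, ?_⟩
      rw [hn, mul_pow, Finset.prod_pow, ← pow_mul, mul_comm m n]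
  obtain ⟨Q, hQ⟩ := hroot
  have hPne : ∀ x ∈ (Finset.univ : Finset (J ⊕ J)), P x ≠ 0 := by
    intro x _ h0
    have h1 := hP1 x
    rw [h0, eval_zero] at h1
    exact mul_ne_zero hβ'0 (pow_ne_zero _ (hρ0 x)) h1.symm
  refine relation2 (P := P) hζ (hPc Sum.inl p (fun j => rfl) hp hvc1)
    (hPc Sum.inr q (fun j => rfl) hq hvc2) hβ'0 hβ'0 (fun j => hP1 (Sum.inl j))
    (fun j => hP1 (Sum.inr j)) ψ ψ' (fun {F} _ _ _ _ x hx τ t ht => ?_) hzero ?_
  · have h1 := sum_eq_zero_of_root hζ hx hPne (fun j hj => absurd (Finset.mem_univ j) hj) hQ ht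
    rw [Fintype.sum_sum_type] at h1
    rw [hψ, hψ']
    exact pow_val_add hω.pow_eq_one h1
  · simp only [hP0]
    have hv1 : v (Sum.inl i₁) = 0 := by
      rw [hvβ _ (Finset.mem_univ _)]
      simp [hκdef, hβ]
    by_cases hl : ∃ l, v (Sum.inl l) ≠ 0
    · obtain ⟨l, hl⟩ := hl
      exact Or.inl ⟨i₁, l, hv1, hl⟩
    · push Not at hl
      have hβi : β (some (b (Sum.inl i₂))) = 0 := by
        have h1 := hvβ (Sum.inl i₂) (Finset.mem_univ _)
        have h2 : κ (Sum.inl i₂) = some (b (Sum.inl i₂)) := by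
          simp [hκdef, hi.symm]
        rw [h2, hl i₂] at h1
        exact (mul_eq_zero.1 h1.symm).resolve_right (pow_ne_zero _ (hρ0 _))
      have hvi : v (Sum.inr i') = 0 := by
        rw [hvβ _ (Finset.mem_univ _)]
        have h2 : κ (Sum.inr i') = some (b (Sum.inr i')) := by
          simp [hκdef]
        rw [h2, ← hbi, hβi, zero_mul]
      have hr : ∃ l, v (Sum.inr l) ≠ 0 := by
        by_contra hcon
        push Not at hcon
        apply hv0
        funext x
        rcases x with j | j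
        · exact hl j
        · exact hcon j
      obtain ⟨l, hl'⟩ := hr
      exact Or.inr ⟨i', l, hvi, hl'⟩

end Pool.Agent.VCI
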