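import Pool.Agent.VCI.Defs
import Pool.Agent.ZCyc.Basic

/-!
# Exterior products of zero-cycles and rational equivalence
-/

open scoped LinearAlgebra.Projectivization

namespace Pool.Agent.VCI

open Pool.Agent.ZCyc Pool.Agent.DCI57 Pool.Agent.ZVois

universe u w

section Formal

variable {k : Type u} [Field k] {J : Type} {R : Type w} [Field R]

private theorem prod_add_left (a a' b : ℙ k (J → k) →₀ R) :
    prod (a + a') b = prod a b + prod a' b := by
  classical
  unfold prod
  apply Finsupp.sum_add_index'
  · intro p
    simp [Finsupp.sum]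
  · intro p r r'
    rw [← Finsupp.sum_add]
    apply Finsupp.sum_congr
    intro q _
    rw [add_mul, Finsupp.single_add]

private theorem prod_smul_left (c : R) (a b : ℙ k (J → k) →₀ R) :
    prod (c • a) b = c • prod a b := by
  classical
  unfold prod
  rw [Finsupp.sum_smul_index']
  · rw [Finsupp.smul_sum]
    apply Finsupp.sum_congr
    intro p _
    rw [Finsupp.smul_sum]
    apply Finsupp.sum_congr
    intro q _
    rw [Finsupp.smul_single, smul_eq_mul, smul_eq_mul, mul_assoc]
  · intro p
    simp [Finsupp.sum]

private theorem prod_add_right (a b b' : ℙ k (J → k) →₀ R) :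
    prod a (b + b') = prod a b + prod a b' := by
  classical
  unfold prod
  rw [← Finsupp.sum_add]
  apply Finsupp.sum_congr
  intro p _
  apply Finsupp.sum_add_index'
  · intro q
    simp
  · intro q t t'
    rw [mul_add, Finsupp.single_add]

private theorem prod_smul_right (c : R) (a b : ℙ k (J → k) →₀ R) :
    prod a (c • b) = c • prod a b := by
  classical
  unfold prod
  rw [Finsupp.smul_sum]
  apply Finsupp.sum_congr
  intro p _
  rw [Finsupp.sum_smul_index', Finsupp.smul_sum]
  · apply Finsupp.sum_congr
    intro q _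
    rw [Finsupp.smul_single, smul_eq_mul, smul_eq_mul, mul_left_comm]
  · intro q
    simp

/-- the exterior product as a bilinear map -/
noncomputable def prodL (k : Type u) [Field k] (J : Type) (R : Type w) [Field R] :
    (ℙ k (J → k) →₀ R) →ₗ[R] (ℙ k (J → k) →₀ R) →ₗ[R] (ℙ k (J → k) × ℙ k (J → k) →₀ R) :=
  LinearMap.mk₂ R prod prod_add_left prod_smul_left prod_add_right prod_smul_right

theorem prodL_apply (a b : ℙ k (J → k) →₀ R) : prodL k J R a b = prod a b := rfl

theorem prodL_single (p q : ℙ k (J → k)) (r t : R) :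
    prodL k J R (Finsupp.single p r) (Finsupp.single q t) = Finsupp.single (p, q) (r * t) := by
  rw [prodL_apply]
  unfold prod
  rw [Finsupp.sum_single_index, Finsupp.sum_single_index]
  · simp
  · simp [Finsupp.sum]

theorem gen2_mem {X : Set (ℙ k (J → k))} {F : Type u} [Field F] [Algebra k F]
    [Algebra (RatFunc k) F] [IsScalarTower k (RatFunc k) F] [FiniteDimensional (RatFunc k) F]
    [IsGalois (RatFunc k) F] {x y : J → F} {φ ψ : Place k F → ℙ k (J → k)}
    (h1 : ∀ v, IsValue v x (φ v)) (h2 : ∀ v, IsValue v y (ψ v)) (h3 : ∀ v, φ v ∈ X)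
    (h4 : ∀ v, ψ v ∈ X) {a b : k} {v w : Place k F}
    (hv : v.Vanishes (algebraMap (RatFunc k) F (RatFunc.X - RatFunc.C a)))
    (hw : w.Vanishes (algebraMap (RatFunc k) F (RatFunc.X - RatFunc.C b))) :
    ∑ τ : F ≃ₐ[RatFunc k] F, (Finsupp.single
        (φ (v.map (τ.restrictScalars k)), ψ (v.map (τ.restrictScalars k))) (1 : R) -
      Finsupp.single (φ (w.map (τ.restrictScalars k)), ψ (w.map (τ.restrictScalars k))) 1) ∈
        ratEquiv2 R X :=
  Submodule.subset_span ⟨F, inferInstance, inferInstance, inferInstance, inferInstance,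
    inferInstance, inferInstance, x, y, φ, ψ, h1, h2, h3, h4, a, b, v, w, hv, hw, rfl⟩

private theorem isValue_const {F : Type*} [Field F] [Algebra k F] (v : Place k F)
    (q : ℙ k (J → k)) : IsValue v (fun j => algebraMap k F (q.rep j)) q := by
  refine ⟨1, fun j => ?_⟩
  rw [one_mul, sub_self]
  exact v.vanishes_zero

private theorem sum_single_eq (b : ℙ k (J → k) →₀ R) :
    b = ∑ q ∈ b.support, b q • Finsupp.single q (1 : R) := by
  classical
  conv_lhs => rw [← Finsupp.sum_single b]
  unfold Finsupp.sum
  apply Finset.sum_congr rfl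
  intro q _
  rw [Finsupp.smul_single, smul_eq_mul, mul_one]

theorem prodL_mem_left {X : Set (ℙ k (J → k))} {a b : ℙ k (J → k) →₀ R}
    (ha : a ∈ ratEquiv R X) (hb : ∀ p ∈ b.support, p ∈ X) :
    prodL k J R a b ∈ ratEquiv2 R X := by
  classical
  have key : ∀ q ∈ X, ∀ a ∈ ratEquiv R X,
      prodL k J R a (Finsupp.single q 1) ∈ ratEquiv2 R X := by
    intro q hq a ha
    induction ha using Submodule.span_induction with
    | mem z hz =>
      obtain ⟨F, iF, iA, iB, iT, iD, iG, x, φ, h1, h2, a, b, v, w, hv, hw, rfl⟩ := hz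
      have h := gen2_mem (R := R) (X := X) h1
        (fun v : Place k F => isValue_const v q) h2 (fun _ => hq) hv hw
      convert h using 1
      rw [map_sum, LinearMap.sum_apply]
      apply Finset.sum_congr rfl
      intro τ _
      rw [map_sub, LinearMap.sub_apply, prodL_single, prodL_single, mul_one]
    | zero =>
      rw [map_zero, LinearMap.zero_apply]
      exact Submodule.zero_mem _
    | add y z _ _ hy hz =>
      rw [map_add, LinearMap.add_apply]
      exact Submodule.add_mem _ hy hz
    | smul c z _ hz =>
      rw [map_smul, LinearMap.smul_apply]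
      exact Submodule.smul_mem _ _ hz
  rw [sum_single_eq b, map_sum]
  apply Submodule.sum_mem
  intro q hq
  rw [map_smul]
  exact Submodule.smul_mem _ _ (key q (hb q hq) a ha)

theorem prodL_mem_right {X : Set (ℙ k (J → k))} {a b : ℙ k (J → k) →₀ R}
    (ha : ∀ p ∈ a.support, p ∈ X) (hb : b ∈ ratEquiv R X) :
    prodL k J R a b ∈ ratEquiv2 R X := by
  classical
  have key : ∀ p ∈ X, ∀ b ∈ ratEquiv R X,
      prodL k J R (Finsupp.single p 1) b ∈ ratEquiv2 R X := by
    intro p hp b hb
    induction hb using Submodule.span_induction with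
    | mem z hz =>
      obtain ⟨F, iF, iA, iB, iT, iD, iG, x, φ, h1, h2, a, b, v, w, hv, hw, rfl⟩ := hz
      have h := gen2_mem (R := R) (X := X)
        (fun v : Place k F => isValue_const v p) h1 (fun _ => hp) h2 hv hw
      convert h using 1
      rw [map_sum]
      apply Finset.sum_congr rfl
      intro τ _
      rw [map_sub, prodL_single, prodL_single, mul_one]
    | zero =>
      rw [map_zero]
      exact Submodule.zero_mem _
    | add y z _ _ hy hz =>
      rw [map_add]
      exact Submodule.add_mem _ hy hz
    | smul c z _ hz =>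
      rw [map_smul]
      exact Submodule.smul_mem _ _ hz
  rw [sum_single_eq a, map_sum, LinearMap.sum_apply]
  apply Submodule.sum_mem
  intro p hp
  rw [map_smul, LinearMap.smul_apply]
  exact Submodule.smul_mem _ _ (key p (ha p hp) b hb)

end Formal

end Pool.Agent.VCI
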